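import Mathlib

set_option autoImplicit false

/-!
# Project CC of helper152: job LBX (helper31)
-/

namespace Pool.Agent.Q31.CC

theorem prod_app {m : ℕ} {ι : Type} [Fintype ι] (f : ι → DirichletCharacter ℂ m) (a : (ZMod m)ˣ) :
    (∏ i, f i) (a : ZMod m) = ∏ i, f i (a : ZMod m) := by
  classical
  have h : ∀ s : Finset ι, (∏ i ∈ s, f i) (a : ZMod m) = ∏ i ∈ s, f i (a : ZMod m) := by
    intro s
    induction s using Finset.induction_on with
    | empty => simp
    | insert i s hi ih => rw [Finset.prod_insert hi, Finset.prod_insert hi, MulChar.mul_apply, ih]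
  exact h Finset.univ

theorem local_data {m : ℕ} (hm : Squarefree m) {p : ℕ} (hp : p.Prime) (hpm : p ∣ m) (h3 : p % 3 = 1) :
    ∃ (χ : DirichletCharacter ℂ p) (k : ℤ), IsCoprime k (m : ℤ) ∧ χ ^ 3 = 1 ∧ χ (k : ZMod p) ≠ 1 ∧
      χ (k : ZMod p) ^ 3 = 1 ∧ ((m / p : ℕ) : ℤ) ∣ k - 1 := by
  classical
  have : Fact p.Prime := ⟨hp⟩
  have hcard : 3 ∣ Fintype.card (ZMod p) - 1 := by
    rw [ZMod.card]
    omega
  obtain ⟨χ, hχ⟩ := MulChar.exists_mulChar_orderOf (F := ZMod p) (R := ℂ) hcard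
    (Complex.isPrimitiveRoot_exp 3 (by norm_num))
  have hχ1 : χ ≠ 1 := by
    rintro rfl
    rw [orderOf_one] at hχ
    omega
  have hχ3 : χ ^ 3 = 1 := by
    rw [← hχ]
    exact pow_orderOf_eq_one χ
  obtain ⟨g, hg⟩ := MulChar.ne_one_iff.mp hχ1
  have hmul : p * (m / p) = m := Nat.mul_div_cancel' hpm
  have hcop : p.Coprime (m / p) := by
    have h := hm
    rw [← hmul] at h
    exact Nat.coprime_of_squarefree_mul h
  obtain ⟨k, hk1, hk2⟩ := Nat.chineseRemainder hcop (g : ZMod p).val 1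
  have hkg : ((k : ℕ) : ZMod p) = g := by
    have h := (ZMod.natCast_eq_natCast_iff _ _ _).mpr hk1
    rw [h, ZMod.natCast_zmod_val]
  have hc1 : Nat.Coprime k p := by
    rw [← ZMod.isUnit_iff_coprime, hkg]
    exact g.isUnit
  have hc2 : Nat.Coprime k (m / p) := by
    have h := Nat.ModEq.gcd_eq hk2
    rw [Nat.gcd_one_left] at h
    exact h
  have hc : Nat.Coprime k m := by
    rw [← hmul]
    exact Nat.Coprime.mul_right hc1 hc2
  have hkg' : (((k : ℕ) : ℤ) : ZMod p) = g := by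
    rw [Int.cast_natCast]
    exact hkg
  refine ⟨χ, (k : ℤ), Nat.isCoprime_iff_coprime.mpr hc, hχ3, ?_, ?_, ?_⟩
  · rw [hkg']
    exact hg
  · rw [hkg', ← MulChar.pow_apply' _ (by norm_num : (3 : ℕ) ≠ 0), hχ3]
    exact MulChar.one_apply_coe g
  · have h := (Nat.modEq_iff_dvd.mp hk2)
    rw [dvd_sub_comm]
    simpa using h

theorem lbx : ∀ m : ℕ, Squarefree m → (∀ p : ℕ, p.Prime → p ∣ m → p % 3 = 1) →
    2 ^ m.primeFactors.card ≤ {χ : DirichletCharacter ℂ m | χ.IsPrimitive ∧ χ ^ 3 = 1}.ncard := by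
  intro m hm hp
  classical
  have hm0 : m ≠ 0 := hm.ne_zero
  have : NeZero m := ⟨hm0⟩
  have key : ∀ p : {p // p ∈ m.primeFactors}, ∃ (χ : DirichletCharacter ℂ p.1) (k : ℤ),
      IsCoprime k (m : ℤ) ∧ χ ^ 3 = 1 ∧ χ (k : ZMod p.1) ≠ 1 ∧ χ (k : ZMod p.1) ^ 3 = 1 ∧
      ((m / p.1 : ℕ) : ℤ) ∣ k - 1 := fun p =>
    local_data hm (Nat.prime_of_mem_primeFactors p.2) (Nat.dvd_of_mem_primeFactors p.2)
      (hp _ (Nat.prime_of_mem_primeFactors p.2) (Nat.dvd_of_mem_primeFactors p.2))
  choose χ k hk1 hk2 hk3 hk4 hk5 using key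
  have hd : ∀ p : {p // p ∈ m.primeFactors}, p.1 ∣ m := fun p => Nat.dvd_of_mem_primeFactors p.2
  obtain ⟨X, hXdef⟩ : ∃ X : ({p // p ∈ m.primeFactors} → Bool) → DirichletCharacter ℂ m,
      X = fun s => ∏ p, DirichletCharacter.changeLevel (hd p) (χ p ^ (if s p then 1 else 2)) := ⟨_, rfl⟩
  have hX : ∀ s p, X s ((k p : ℤ) : ZMod m) = χ p ((k p : ℤ) : ZMod p.1) ^ (if s p then 1 else 2) := by
    intro s p
    have hu : ((ZMod.unitOfIsCoprime (k p) (hk1 p) : (ZMod m)ˣ) : ZMod m) = ((k p : ℤ) : ZMod m) :=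
      ZMod.coe_unitOfIsCoprime _ _
    rw [hXdef]
    simp only
    rw [← hu, prod_app, hu, Finset.prod_eq_single p]
    · rw [DirichletCharacter.changeLevel_eq_cast_of_dvd' _ (hd p) (hk1 p)]
      split_ifs
      · rw [pow_one, pow_one]
      · rw [MulChar.pow_apply' _ (by norm_num : (2 : ℕ) ≠ 0)]
    · intro q _ hqp
      rw [DirichletCharacter.changeLevel_eq_cast_of_dvd' _ (hd q) (hk1 p)]
      have hne : q.1 ≠ p.1 := fun h => hqp (Subtype.ext h)
      have hq : q.1 ∣ m / p.1 := by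
        have h1 : q.1 ∣ p.1 * (m / p.1) := by
          rw [Nat.mul_div_cancel' (hd p)]
          exact hd q
        have h2 : Nat.Coprime q.1 p.1 := (Nat.coprime_primes (Nat.prime_of_mem_primeFactors q.2)
          (Nat.prime_of_mem_primeFactors p.2)).mpr hne
        exact h2.dvd_of_dvd_mul_left h1
      have h1 : ((k p : ℤ) : ZMod q.1) = 1 := by
        have h2 : ((q.1 : ℕ) : ℤ) ∣ k p - 1 := (Int.natCast_dvd_natCast.mpr hq).trans (hk5 p)
        have h3 := (ZMod.intCast_zmod_eq_zero_iff_dvd (k p - 1) q.1).mpr h2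
        rw [Int.cast_sub, Int.cast_one, sub_eq_zero] at h3
        exact h3
      rw [h1, map_one]
    · intro h
      exact absurd (Finset.mem_univ p) h
  have hne : ∀ s p, X s ((k p : ℤ) : ZMod m) ≠ 1 := by
    intro s p
    rw [hX]
    split_ifs
    · rw [pow_one]
      exact hk3 p
    · intro h
      apply hk3 p
      have h4 := hk4 p
      rw [pow_succ, h, one_mul] at h4
      exact h4
  have hinj : Function.Injective X := by
    intro s s' h
    funext p
    have h1 := hX s p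
    rw [h, hX s' p] at h1
    have h0 : χ p ((k p : ℤ) : ZMod p.1) ≠ 0 := by
      intro h0
      have h4 := hk4 p
      rw [h0] at h4
      norm_num at h4
    cases hs : s p <;> cases hs' : s' p
    · rfl
    · exfalso
      rw [hs, hs'] at h1
      simp only [if_true, if_false, Bool.false_eq_true, pow_one] at h1
      apply hk3 p
      have h2 : χ p ((k p : ℤ) : ZMod p.1) * 1 = χ p ((k p : ℤ) : ZMod p.1) * χ p ((k p : ℤ) : ZMod p.1) := by
        rw [mul_one, ← pow_two]
        exact h1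
      exact (mul_left_cancel₀ h0 h2).symm
    · exfalso
      rw [hs, hs'] at h1
      simp only [if_true, if_false, Bool.false_eq_true, pow_one] at h1
      apply hk3 p
      have h2 : χ p ((k p : ℤ) : ZMod p.1) * 1 = χ p ((k p : ℤ) : ZMod p.1) * χ p ((k p : ℤ) : ZMod p.1) := by
        rw [mul_one, ← pow_two]
        exact h1.symm
      exact (mul_left_cancel₀ h0 h2).symm
    · rfl
  have hmem : ∀ s, X s ∈ {χ : DirichletCharacter ℂ m | χ.IsPrimitive ∧ χ ^ 3 = 1} := by
    intro s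
    constructor
    · by_contra hnp
      have hcd := DirichletCharacter.conductor_dvd_level (X s)
      obtain ⟨c, hc⟩ := hcd
      have hc1 : c ≠ 1 := by
        rintro rfl
        apply hnp
        rw [DirichletCharacter.isPrimitive_def]
        rw [mul_one] at hc
        exact hc.symm
      obtain ⟨p, hpp, hpc⟩ := Nat.exists_prime_and_dvd hc1
      have hpm : p ∣ m := hc ▸ Dvd.dvd.mul_left hpc _
      have hpmem : p ∈ m.primeFactors := Nat.mem_primeFactors.mpr ⟨hpp, hpm, hm0⟩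
      obtain ⟨hdd, χ₀, hχ₀⟩ := DirichletCharacter.factorsThrough_conductor (X s)
      apply hne s ⟨p, hpmem⟩
      rw [hχ₀, DirichletCharacter.changeLevel_eq_cast_of_dvd' _ hdd (hk1 ⟨p, hpmem⟩)]
      have hdm : (X s).conductor ∣ m / p := by
        obtain ⟨c', rfl⟩ := hpc
        refine ⟨c', ?_⟩
        have h5 : m = p * ((X s).conductor * c') := hc.trans (Nat.mul_left_comm _ _ _)
        have h6 : m / p = p * ((X s).conductor * c') / p := congrArg (fun n => n / p) h5
        exact h6.trans (Nat.mul_div_cancel_left _ hpp.pos)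
      have h2 : (((X s).conductor : ℕ) : ℤ) ∣ k ⟨p, hpmem⟩ - 1 :=
        (Int.natCast_dvd_natCast.mpr hdm).trans (hk5 ⟨p, hpmem⟩)
      have h3 := (ZMod.intCast_zmod_eq_zero_iff_dvd (k ⟨p, hpmem⟩ - 1) (X s).conductor).mpr h2
      rw [Int.cast_sub, Int.cast_one, sub_eq_zero] at h3
      rw [h3, map_one]
    · rw [hXdef]
      simp only
      rw [← Finset.prod_pow]
      apply Finset.prod_eq_one
      intro p _
      rw [← map_pow, ← pow_mul, mul_comm, pow_mul, hk2 p, one_pow, map_one]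
  have hfin : {χ : DirichletCharacter ℂ m | χ.IsPrimitive ∧ χ ^ 3 = 1}.Finite := Set.toFinite _
  calc 2 ^ m.primeFactors.card = Nat.card ({p // p ∈ m.primeFactors} → Bool) := by
        rw [Nat.card_eq_fintype_card, Fintype.card_fun, Fintype.card_bool, Fintype.card_coe]
    _ = (Set.range X).ncard := by
        rw [← Set.image_univ, Set.ncard_image_of_injective _ hinj, Set.ncard_univ]
    _ ≤ _ := Set.ncard_le_ncard (by rintro _ ⟨s, rfl⟩; exact hmem s) hfin

end Pool.Agent.Q31.CC
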