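import Pool.Agent.Q152.CC.Stm3
import Pool.Agent.Q31.CC.LBX

set_option autoImplicit false

namespace Pool.Agent.Q31.CC

/-- JOB LBX -/
theorem lbxS : Pool.Agent.Q152.CC.S_LBX := lbx

end Pool.Agent.Q31.CC
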