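import Pool.Agent.Q62.CC.Stm

/-!
# Flows between coaxial cylinders (helper62): job CVL (helper31)
-/

set_option autoImplicit false

open Set Filter Topology MeasureTheory
open scoped ENNReal ContDiff

namespace Pool.Agent.Q31.CCf

open Pool.Agent.Q61.NC (Sp)
open Pool.Agent.Q62.CC

theorem esq (v : ℝ) : ‖v‖ₑ ^ 2 = ENNReal.ofReal (v ^ 2) := by
  rw [← ofReal_norm, ← ENNReal.ofReal_pow (norm_nonneg _), Real.norm_eq_abs, sq_abs]

theorem enorm_sq {d : ℕ} (v : Sp d) : ‖v‖ₑ ^ 2 = ∑ k, ‖v k‖ₑ ^ 2 := by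
  have h := EuclideanSpace.norm_sq_eq v
  have h1 : ‖v‖ₑ ^ 2 = ENNReal.ofReal (‖v‖ ^ 2) := by
    rw [ENNReal.ofReal_pow (norm_nonneg _), ofReal_norm]
  rw [h1, h, ENNReal.ofReal_sum_of_nonneg fun i _ => by positivity]
  refine Finset.sum_congr rfl fun k _ => ?_
  rw [ENNReal.ofReal_pow (norm_nonneg _), ofReal_norm]

theorem t_CVL : S_CVL := by
  intro d j k Ω A f h hjk t x hN
  obtain ⟨r, hr⟩ : ∃ r, r = √(N2 j k x) := ⟨_, rfl⟩
  have hr0 : 0 < r := by rw [hr]; exact Real.sqrt_pos.2 hN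
  have hr2 : r ^ 2 = x j ^ 2 + x k ^ 2 := by rw [hr]; exact Real.sq_sqrt hN.le
  obtain ⟨E, hE⟩ : ∃ E, E = r * Ω t (N2 j k x) - f r := ⟨_, rfl⟩
  have hv : ∀ i, (vel j k Ω A t x - dat j k f h x) i = if i = j then -(x k / r * E) else
      if i = k then x j / r * E else A i t (N2 j k x) - h i r := by
    intro i
    have e1 : vel j k Ω A t x i = if i = j then -(x k * Ω t (N2 j k x)) else
        if i = k then x j * Ω t (N2 j k x) else A i t (N2 j k x) := rfl
    have e2 : dat j k f h x i = if i = j then -(x k / √(N2 j k x) * f (√(N2 j k x))) else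
        if i = k then x j / √(N2 j k x) * f (√(N2 j k x)) else h i (√(N2 j k x)) := rfl
    rw [PiLp.sub_apply, e1, e2, ← hr]
    by_cases h1 : i = j
    · rw [if_pos h1, if_pos h1, if_pos h1, hE]
      field_simp
      ring
    · rw [if_neg h1, if_neg h1, if_neg h1]
      by_cases h2 : i = k
      · rw [if_pos h2, if_pos h2, if_pos h2, hE]
        field_simp
      · rw [if_neg h2, if_neg h2, if_neg h2]
  rw [← hr, ← hE, enorm_sq]
  calc ∑ i, ‖(vel j k Ω A t x - dat j k f h x) i‖ₑ ^ 2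
      ≤ ∑ i, ((if i = j then ‖x k / r * E‖ₑ ^ 2 else 0) + (if i = k then ‖x j / r * E‖ₑ ^ 2 else 0) +
          ‖A i t (N2 j k x) - h i r‖ₑ ^ 2) := by
        refine Finset.sum_le_sum fun i _ => ?_
        rw [hv]
        by_cases h1 : i = j
        · rw [if_pos h1, if_pos h1, enorm_neg, add_assoc]
          exact le_self_add
        · rw [if_neg h1, if_neg h1, zero_add]
          by_cases h2 : i = k
          · rw [if_pos h2, if_pos h2]
            exact le_self_add
          · rw [if_neg h2, if_neg h2, zero_add]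
    _ = ‖x k / r * E‖ₑ ^ 2 + ‖x j / r * E‖ₑ ^ 2 + ∑ i, ‖A i t (N2 j k x) - h i r‖ₑ ^ 2 := by
        rw [Finset.sum_add_distrib, Finset.sum_add_distrib, Finset.sum_ite_eq' Finset.univ j,
          Finset.sum_ite_eq' Finset.univ k, if_pos (Finset.mem_univ _), if_pos (Finset.mem_univ _)]
    _ = ‖E‖ₑ ^ 2 + ∑ i, ‖A i t (N2 j k x) - h i r‖ₑ ^ 2 := by
        congr 1
        rw [esq, esq, esq, ← ENNReal.ofReal_add (sq_nonneg _) (sq_nonneg _)]
        congr 1
        have h1 : (x k / r * E) ^ 2 + (x j / r * E) ^ 2 = (x j ^ 2 + x k ^ 2) / r ^ 2 * E ^ 2 := by ring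
        rw [h1, ← hr2, div_self (by positivity), one_mul]

end Pool.Agent.Q31.CCf
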